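import Pool.Agent.H700.AM.Core

/-!
# Growth exponent and norm exponent
-/

set_option autoImplicit false

namespace Pool.Agent.H700.AM

open Finset Filter Pool.Agent.H700.HD

/-- One step of the bootstrapping argument. -/
theorem step (b : ℕ → ℝ) (hb : Monotone b) (hb0 : ∀ j, 0 ≤ b j) (H σ θ C : ℝ) (hH : 0 ≤ H)
    (hpos : 0 < σ + 2 * θ) (j0 : ℕ)
    (h : ∀ j, j0 ≤ j → (b (j + 1) - b j) ^ 3 ≤ H * (3 : ℝ) ^ (σ * j) * b (j + 2) ^ 2)
    (hP : ∀ j : ℕ, b j ≤ C * (3 : ℝ) ^ (θ * j)) :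
    ∃ C' : ℝ, 0 ≤ C' ∧ ∀ j : ℕ, b j ≤ C' * (3 : ℝ) ^ ((σ + 2 * θ) / 3 * j) := by
  set θ' : ℝ := (σ + 2 * θ) / 3 with hθ'
  have hθ'0 : 0 < θ' := by rw [hθ']; positivity
  set q : ℝ := (3 : ℝ) ^ θ' with hq
  have hq1 : 1 < q := Real.one_lt_rpow (by norm_num) hθ'0
  have hqj : ∀ j : ℕ, (3 : ℝ) ^ (θ' * j) = q ^ j := by
    intro j
    rw [hq, Real.rpow_mul (by norm_num), Real.rpow_natCast]
  set D : ℝ := H * C ^ 2 * (3 : ℝ) ^ (4 * θ) with hD
  have h3 : (0 : ℝ) < (3 : ℝ) ^ (4 * θ) := Real.rpow_pos_of_pos (by norm_num) _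
  have hD0 : 0 ≤ D := by rw [hD]; positivity
  have hstep : ∀ j, j0 ≤ j → b (j + 1) ≤ b j + (D + 1) * q ^ j := by
    intro j hj
    have e1 := h j hj
    have e2 : b (j + 2) ^ 2 ≤ (C * (3 : ℝ) ^ (θ * ((j + 2 : ℕ) : ℝ))) ^ 2 :=
      pow_le_pow_left₀ (hb0 _) (hP (j + 2)) 2
    have e3 : H * (3 : ℝ) ^ (σ * j) * (C * (3 : ℝ) ^ (θ * ((j + 2 : ℕ) : ℝ))) ^ 2 = D * (q ^ j) ^ 3 := by
      have a1 : ((3 : ℝ) ^ (θ * ((j + 2 : ℕ) : ℝ))) ^ 2 = (3 : ℝ) ^ (2 * θ * j + 4 * θ) := by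
        rw [← Real.rpow_natCast, ← Real.rpow_mul (by norm_num)]
        congr 1
        push_cast
        ring
      have a2 : (q ^ j) ^ 3 = (3 : ℝ) ^ (σ * j + 2 * θ * j) := by
        rw [← hqj, ← Real.rpow_natCast, ← Real.rpow_mul (by norm_num)]
        congr 1
        rw [hθ']
        push_cast
        ring
      rw [mul_pow, a1, a2, hD, Real.rpow_add (by norm_num), Real.rpow_add (by norm_num)]
      ring
    have e4 : (b (j + 1) - b j) ^ 3 ≤ ((D + 1) * q ^ j) ^ 3 := by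
      calc (b (j + 1) - b j) ^ 3 ≤ _ := e1
        _ ≤ H * (3 : ℝ) ^ (σ * j) * (C * (3 : ℝ) ^ (θ * ((j + 2 : ℕ) : ℝ))) ^ 2 :=
          mul_le_mul_of_nonneg_left e2 (by positivity)
        _ = D * (q ^ j) ^ 3 := e3
        _ ≤ (D + 1) ^ 3 * (q ^ j) ^ 3 := by
          refine mul_le_mul_of_nonneg_right ?_ (by positivity)
          nlinarith [sq_nonneg D, mul_nonneg hD0 hD0, mul_nonneg (mul_nonneg hD0 hD0) hD0]
        _ = _ := by ring
    have e5 : b (j + 1) - b j ≤ (D + 1) * q ^ j :=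
      (pow_le_pow_iff_left₀ (sub_nonneg.2 (hb (Nat.le_succ j))) (by positivity) (by norm_num)).1 e4
    linarith
  set E : ℝ := (D + 1) / (q - 1) with hE
  have hE0 : 0 ≤ E := div_nonneg (by linarith) (by linarith)
  have hEq : E * (q - 1) = D + 1 := div_mul_cancel₀ _ (by linarith)
  have hind : ∀ j, j0 ≤ j → b j ≤ b j0 + E * q ^ j := by
    intro j hj
    induction j, hj using Nat.le_induction with
    | base =>
      have : 0 ≤ E * q ^ j0 := by positivity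
      linarith
    | succ j hj ih =>
      have e1 := hstep j hj
      have e2 : E * q ^ (j + 1) = E * q ^ j + (E * (q - 1)) * q ^ j := by ring
      rw [e2, hEq]
      linarith
  refine ⟨b j0 + E, add_nonneg (hb0 _) hE0, fun j => ?_⟩
  rw [hqj]
  have hqj1 : 1 ≤ q ^ j := one_le_pow₀ hq1.le
  rcases le_total j0 j with hj | hj
  · calc b j ≤ b j0 + E * q ^ j := hind j hj
      _ ≤ (b j0 + E) * q ^ j := by nlinarith [hb0 j0]
  · calc b j ≤ b j0 := hb hj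
      _ ≤ b j0 + E := by linarith
      _ ≤ (b j0 + E) * q ^ j := le_mul_of_one_le_right (add_nonneg (hb0 _) hE0) hqj1

theorem iterate (b : ℕ → ℝ) (hb : Monotone b) (hb0 : ∀ j, 0 ≤ b j) (H σ C : ℝ) (hH : 0 ≤ H) (hC : 0 ≤ C)
    (hσ : 0 < σ) (j0 : ℕ)
    (h : ∀ j, j0 ≤ j → (b (j + 1) - b j) ^ 3 ≤ H * (3 : ℝ) ^ (σ * j) * b (j + 2) ^ 2)
    (hP : ∀ j : ℕ, b j ≤ C * (3 : ℝ) ^ ((1 / 2 : ℝ) * j)) (m : ℕ) :
    ∃ C' : ℝ, 0 ≤ C' ∧ ∀ j : ℕ, b j ≤ C' * (3 : ℝ) ^ ((σ + (2 / 3 : ℝ) ^ m * (1 / 2)) * j) := by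
  induction m with
  | zero =>
    refine ⟨C, hC, fun j => (hP j).trans (mul_le_mul_of_nonneg_left ?_ hC)⟩
    refine Real.rpow_le_rpow_of_exponent_le (by norm_num) ?_
    refine mul_le_mul_of_nonneg_right ?_ (Nat.cast_nonneg j)
    rw [pow_zero]
    linarith
  | succ m ih =>
    obtain ⟨C', hC', h'⟩ := ih
    have hm : 0 < (2 / 3 : ℝ) ^ m := by positivity
    obtain ⟨C'', hC'', h''⟩ := step b hb hb0 H σ (σ + (2 / 3 : ℝ) ^ m * (1 / 2)) C' hH (by positivity) j0 h h'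
    refine ⟨C'', hC'', fun j => ?_⟩
    have e : (σ + 2 * (σ + (2 / 3 : ℝ) ^ m * (1 / 2))) / 3 = σ + (2 / 3 : ℝ) ^ (m + 1) * (1 / 2) := by
      rw [pow_succ]
      ring
    rw [← e]
    exact h'' j

theorem growth (b : ℕ → ℝ) (hb : Monotone b) (hb0 : ∀ j, 0 ≤ b j) (H σ C : ℝ) (hH : 0 ≤ H) (hC : 0 ≤ C)
    (hσ : 0 < σ) (j0 : ℕ)
    (h : ∀ j, j0 ≤ j → (b (j + 1) - b j) ^ 3 ≤ H * (3 : ℝ) ^ (σ * j) * b (j + 2) ^ 2)
    (hP : ∀ j : ℕ, b j ≤ C * (3 : ℝ) ^ ((1 / 2 : ℝ) * j)) (δ : ℝ) (hδ : 0 < δ) :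
    ∃ C' : ℝ, 0 ≤ C' ∧ ∀ j : ℕ, b j ≤ C' * (3 : ℝ) ^ ((σ + δ) * j) := by
  obtain ⟨m, hm⟩ := exists_pow_lt_of_lt_one hδ (show (2 / 3 : ℝ) < 1 by norm_num)
  obtain ⟨C', hC', h'⟩ := iterate b hb hb0 H σ C hH hC hσ j0 h hP m
  refine ⟨C', hC', fun j => (h' j).trans (mul_le_mul_of_nonneg_left ?_ hC')⟩
  refine Real.rpow_le_rpow_of_exponent_le (by norm_num) ?_
  refine mul_le_mul_of_nonneg_right ?_ (Nat.cast_nonneg j)
  have : 0 < (2 / 3 : ℝ) ^ m := by positivity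
  linarith

variable {A : Set ℕ}

theorem count_mono (A : Set ℕ) : Monotone (count A) := by
  classical
  intro m n h
  unfold count
  exact card_le_card (filter_subset_filter _ (range_mono h))

theorem count_sq_le (K : ℕ) (hK : ∀ n, rep A n ≤ K) (N : ℕ) : count A N ^ 2 ≤ 2 * K * N := by
  classical
  set R : Finset ℕ := (range N).filter fun a => a ∈ A with hR
  have e1 : count A N ^ 2 = (R ×ˢ R).card := by
    rw [card_product, count, sq]
  rw [e1]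
  have e2 : (R ×ˢ R).card = ∑ n ∈ range (2 * N), ((R ×ˢ R).filter fun p => p.1 + p.2 = n).card := by
    refine card_eq_sum_card_fiberwise ?_
    intro p hp
    rw [mem_coe, mem_product, hR, mem_filter, mem_filter, mem_range, mem_range] at hp
    rw [mem_coe, mem_range]
    show p.1 + p.2 < 2 * N
    omega
  rw [e2]
  calc ∑ n ∈ range (2 * N), ((R ×ˢ R).filter fun p => p.1 + p.2 = n).card
      ≤ ∑ _n ∈ range (2 * N), K := by
        refine sum_le_sum fun n _ => le_trans (card_le_card ?_) (hK n)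
        intro p hp
        rw [mem_filter, mem_product, hR, mem_filter, mem_filter] at hp
        rw [mem_filter, Finset.HasAntidiagonal.mem_antidiagonal]
        exact ⟨hp.2, hp.1.1.2, hp.1.2.2⟩
    _ = 2 * K * N := by
        rw [sum_const, card_range, smul_eq_mul]
        ring

/-- For every `ε > 0` and all large `N`, there are `β ≥ 1` and `g ≥ 0` with `β g² ≤ N ^ (ρ + ε)` such that the
addition matrix `x + y ∈ A`, `x, y < N`, is the pattern of the nonzero entries, of absolute values from `1` to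
`β`, of a real matrix of factorization norm at most `g`. -/
def Exponent (A : Set ℕ) (ρ : ℝ) : Prop :=
  ∀ ε : ℝ, 0 < ε → ∀ᶠ N : ℕ in atTop, ∃ β g : ℝ, 1 ≤ β ∧ 0 ≤ g ∧ β * g ^ 2 ≤ (N : ℝ) ^ (ρ + ε) ∧
    SumNorm A N β g

theorem growth_of_exponent (K : ℕ) (hK : ∀ n, rep A n ≤ K) (ρ : ℝ) (hρ : 0 ≤ ρ) (hE : Exponent A ρ) (ε : ℝ)
    (hε : 0 < ε) : ∀ᶠ N : ℕ in atTop, (count A N : ℝ) ≤ (N : ℝ) ^ (ρ + ε) := by
  classical
  have hev := hE (ε / 3) (by positivity)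
  obtain ⟨N0, hN0⟩ := eventually_atTop.1 hev
  set σ : ℝ := ρ + ε / 3 with hσ
  have hσ0 : 0 < σ := by rw [hσ]; positivity
  set b : ℕ → ℝ := fun j => (count A (3 ^ j) : ℝ) with hb
  have hbm : Monotone b := by
    intro i j hij
    show (count A (3 ^ i) : ℝ) ≤ count A (3 ^ j)
    exact_mod_cast count_mono A (Nat.pow_le_pow_right (by norm_num) hij)
  have hb0 : ∀ j, 0 ≤ b j := fun j => Nat.cast_nonneg _
  have hmain : ∀ j, N0 ≤ j → (b (j + 1) - b j) ^ 3 ≤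
      (8 * K * (2 : ℝ) ^ σ) * (3 : ℝ) ^ (σ * j) * b (j + 2) ^ 2 := by
    intro j hj
    have h3j : j < 3 ^ j := Nat.lt_pow_self (by norm_num)
    obtain ⟨β, g, hβ, hg, hbg, hS⟩ := hN0 (2 * 3 ^ j) (by omega)
    have e1 := main (A := A) K hK (3 ^ j) β g hβ hS
    have e2 : ((count A (3 * 3 ^ j) - count A (3 ^ j) : ℕ) : ℝ) = b (j + 1) - b j := by
      rw [Nat.cast_sub (count_mono A (by omega))]
      show (count A (3 * 3 ^ j) : ℝ) - _ = (count A (3 ^ (j + 1)) : ℝ) - count A (3 ^ j)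
      rw [pow_succ, mul_comm]
    rw [e2] at e1
    have e3 : (count A (4 * 3 ^ j) : ℝ) ≤ b (j + 2) := by
      show (count A (4 * 3 ^ j) : ℝ) ≤ count A (3 ^ (j + 2))
      have : 4 * 3 ^ j ≤ 3 ^ (j + 2) := by
        rw [pow_add]
        omega
      exact_mod_cast count_mono A this
    have e4 : β * g ^ 2 ≤ (2 : ℝ) ^ σ * (3 : ℝ) ^ (σ * j) := by
      refine hbg.trans (le_of_eq ?_)
      push_cast
      rw [Real.mul_rpow (by norm_num) (by positivity), ← Real.rpow_natCast, ← Real.rpow_mul (by norm_num),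
        mul_comm (j : ℝ) σ]
    have hbg0 : 0 ≤ β * g ^ 2 := by positivity
    calc (b (j + 1) - b j) ^ 3 ≤ _ := e1
      _ ≤ 8 * K * ((2 : ℝ) ^ σ * (3 : ℝ) ^ (σ * j)) * b (j + 2) ^ 2 := by
        refine mul_le_mul ?_ (pow_le_pow_left₀ (Nat.cast_nonneg _) e3 2) (by positivity) (by positivity)
        exact mul_le_mul_of_nonneg_left e4 (by positivity)
      _ = _ := by ring
  have hP : ∀ j : ℕ, b j ≤ Real.sqrt (2 * K) * (3 : ℝ) ^ ((1 / 2 : ℝ) * j) := by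
    intro j
    have e1 := count_sq_le (A := A) K hK (3 ^ j)
    have e2 : b j ^ 2 ≤ 2 * K * 3 ^ j := by
      show (count A (3 ^ j) : ℝ) ^ 2 ≤ _
      exact_mod_cast e1
    have e3 : (Real.sqrt (2 * K) * (3 : ℝ) ^ ((1 / 2 : ℝ) * j)) ^ 2 = 2 * K * 3 ^ j := by
      rw [mul_pow, Real.sq_sqrt (by positivity), ← Real.rpow_natCast, ← Real.rpow_mul (by norm_num)]
      congr 1
      rw [show (1 / 2 : ℝ) * j * ((2 : ℕ) : ℝ) = (j : ℝ) by push_cast; ring, Real.rpow_natCast]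
    refine (pow_le_pow_iff_left₀ (hb0 j) (by positivity) (two_ne_zero)).1 ?_
    rw [e3]
    exact e2
  obtain ⟨C, hC, h⟩ := growth b hbm hb0 (8 * K * (2 : ℝ) ^ σ) σ (Real.sqrt (2 * K)) (by positivity)
    (Real.sqrt_nonneg _) hσ0 N0 hmain hP (ε / 3) (by positivity)
  set τ : ℝ := σ + ε / 3 with hτ
  have hτ0 : 0 < τ := by rw [hτ]; positivity
  have hall : ∀ N : ℕ, 1 ≤ N → (count A N : ℝ) ≤ (C * (3 : ℝ) ^ τ) * (N : ℝ) ^ τ := by
    intro N hN
    set j := Nat.log 3 N with hj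
    have h1 : 3 ^ j ≤ N := Nat.pow_log_le_self 3 (by omega)
    have h2 : N < 3 ^ (j + 1) := Nat.lt_pow_succ_log_self (by norm_num) N
    calc (count A N : ℝ) ≤ b (j + 1) := by
          show (count A N : ℝ) ≤ count A (3 ^ (j + 1))
          exact_mod_cast count_mono A h2.le
      _ ≤ C * (3 : ℝ) ^ (τ * ((j + 1 : ℕ) : ℝ)) := h (j + 1)
      _ = C * (3 : ℝ) ^ τ * (((3 : ℝ) ^ j) ^ τ) := by
          rw [← Real.rpow_natCast 3 j, ← Real.rpow_mul (by norm_num)]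
          push_cast
          rw [mul_add, mul_one, Real.rpow_add (by norm_num), mul_comm (j : ℝ) τ]
          ring
      _ ≤ C * (3 : ℝ) ^ τ * (N : ℝ) ^ τ := by
          refine mul_le_mul_of_nonneg_left ?_ (by positivity)
          refine Real.rpow_le_rpow (by positivity) ?_ hτ0.le
          exact_mod_cast h1
  have hlim : Tendsto (fun N : ℕ => (N : ℝ) ^ (ε / 3)) atTop atTop :=
    (tendsto_rpow_atTop (by positivity)).comp tendsto_natCast_atTop_atTop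
  filter_upwards [hlim.eventually_ge_atTop (C * (3 : ℝ) ^ τ), eventually_ge_atTop 1] with N h1 hN
  have hN0' : (0 : ℝ) < N := by exact_mod_cast hN
  calc (count A N : ℝ) ≤ (C * (3 : ℝ) ^ τ) * (N : ℝ) ^ τ := hall N hN
    _ ≤ (N : ℝ) ^ (ε / 3) * (N : ℝ) ^ τ := mul_le_mul_of_nonneg_right h1 (by positivity)
    _ = (N : ℝ) ^ (ρ + ε) := by
        rw [← Real.rpow_add hN0']
        congr 1
        rw [hτ, hσ]
        ring

theorem exponent_of_growth (ρ : ℝ) (hρ : 0 ≤ ρ)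
    (h : ∀ ε : ℝ, 0 < ε → ∀ᶠ N : ℕ in atTop, (count A N : ℝ) ≤ (N : ℝ) ^ (ρ + ε)) : Exponent A ρ := by
  classical
  intro ε hε
  obtain ⟨N0, hN0⟩ := eventually_atTop.1 (h (ε / 2) (by positivity))
  have hlim : Tendsto (fun N : ℕ => (N : ℝ) ^ (ε / 2)) atTop atTop :=
    (tendsto_rpow_atTop (by positivity)).comp tendsto_natCast_atTop_atTop
  filter_upwards [hlim.eventually_ge_atTop ((2 : ℝ) ^ (ρ + ε / 2)), eventually_ge_atTop 1,
    eventually_ge_atTop N0] with N h1 hN hN0'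
  have hNpos : (0 : ℝ) < N := by exact_mod_cast hN
  set m := max (count A (2 * N)) 1 with hm
  refine ⟨1, Real.sqrt m, le_refl _, Real.sqrt_nonneg _, ?_, ?_⟩
  · rw [one_mul, Real.sq_sqrt (Nat.cast_nonneg _), hm]
    push_cast
    refine max_le ?_ ?_
    · have e := hN0 (2 * N) (by omega)
      push_cast at e
      refine e.trans ?_
      rw [Real.mul_rpow (by norm_num) hNpos.le]
      calc (2 : ℝ) ^ (ρ + ε / 2) * (N : ℝ) ^ (ρ + ε / 2) ≤ (N : ℝ) ^ (ε / 2) * (N : ℝ) ^ (ρ + ε / 2) :=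
            mul_le_mul_of_nonneg_right h1 (by positivity)
        _ = (N : ℝ) ^ (ρ + ε) := by
            rw [← Real.rpow_add hNpos]
            congr 1
            ring
    · exact Real.one_le_rpow (by exact_mod_cast hN) (by positivity)
  · refine ⟨fun x y => if (x : ℕ) + y ∈ A then 1 else 0, ?_, ?_, ?_⟩
    · refine NormLE.of_columns (fun x y : Fin N => (x : ℕ) + y ∈ A) m (le_max_right _ _) ?_
      intro y
      refine le_trans ?_ (le_max_left _ _)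
      unfold count
      refine card_le_card_of_injOn (fun x : Fin N => (x : ℕ) + y) ?_ ?_
      · intro x hx
        rw [mem_coe, mem_filter] at hx
        rw [mem_coe, mem_filter, mem_range]
        have b1 := x.2
        have b2 := y.2
        refine ⟨?_, hx.2⟩
        show (x : ℕ) + y < 2 * N
        omega
      · intro x _ x' _ hxx
        have : (x : ℕ) + y = (x' : ℕ) + y := hxx
        exact Fin.ext (by omega)
    · intro x y hxy
      exact if_neg hxy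
    · intro x y hxy
      show 1 ≤ |if (x : ℕ) + y ∈ A then (1 : ℝ) else 0| ∧ |if (x : ℕ) + y ∈ A then (1 : ℝ) else 0| ≤ 1
      rw [if_pos hxy]
      norm_num

/-- The number of elements of `A` in `{1, ..., N}` is at most `count A (N + 1)`. -/
theorem icc_le_count (A : Set ℕ) (N : ℕ) : (A ∩ Set.Icc 1 N).ncard ≤ count A (N + 1) := by
  classical
  unfold count
  rw [← Set.ncard_coe_finset]
  refine Set.ncard_le_ncard ?_ (Finset.finite_toSet _)
  intro a ha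
  rw [mem_coe, mem_filter, mem_range]
  have := ha.2.2
  exact ⟨by omega, ha.1⟩

theorem threshold (ρ κ : ℝ) (hρ : 0 ≤ ρ) (hκ : ρ + κ < 1 / 2) (hE : Exponent A ρ) (C : ℝ)
    (hfreq : ∃ᶠ N : ℕ in atTop, (N : ℝ) ^ (1 / 2 - κ) ≤ C * ((A ∩ Set.Icc 1 N).ncard : ℝ)) (K : ℕ) :
    ∃ n, K < rep A n := by
  classical
  by_contra hcon
  push Not at hcon
  set ε : ℝ := (1 / 2 - κ - ρ) / 3 with hε
  have hε0 : 0 < ε := by rw [hε]; linarith
  obtain ⟨N0, hN0⟩ := eventually_atTop.1 (growth_of_exponent K hcon ρ hρ hE ε hε0)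
  have hlim : Tendsto (fun N : ℕ => (N : ℝ) ^ ε) atTop atTop :=
    (tendsto_rpow_atTop hε0).comp tendsto_natCast_atTop_atTop
  obtain ⟨N, hN, h1, hN1, hN2⟩ := (hfreq.and_eventually
    (((hlim.eventually_gt_atTop (|C| * (2 : ℝ) ^ (ρ + ε))).and
      ((eventually_ge_atTop 1).and (eventually_ge_atTop N0))))).exists
  have hNpos : (0 : ℝ) < N := by exact_mod_cast hN1
  have e1 : ((A ∩ Set.Icc 1 N).ncard : ℝ) ≤ (2 : ℝ) ^ (ρ + ε) * (N : ℝ) ^ (ρ + ε) := by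
    calc ((A ∩ Set.Icc 1 N).ncard : ℝ) ≤ count A (N + 1) := by exact_mod_cast icc_le_count A N
      _ ≤ ((N + 1 : ℕ) : ℝ) ^ (ρ + ε) := hN0 (N + 1) (by omega)
      _ ≤ (2 * (N : ℝ)) ^ (ρ + ε) := by
          refine Real.rpow_le_rpow (by positivity) ?_ (by positivity)
          have : (N + 1 : ℕ) ≤ 2 * N := by omega
          exact_mod_cast this
      _ = _ := Real.mul_rpow (by norm_num) hNpos.le
  have e2 : (N : ℝ) ^ (1 / 2 - κ) < (N : ℝ) ^ ε * (N : ℝ) ^ (ρ + ε) := by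
    calc (N : ℝ) ^ (1 / 2 - κ) ≤ C * ((A ∩ Set.Icc 1 N).ncard : ℝ) := hN
      _ ≤ |C| * ((A ∩ Set.Icc 1 N).ncard : ℝ) :=
          mul_le_mul_of_nonneg_right (le_abs_self C) (Nat.cast_nonneg _)
      _ ≤ |C| * ((2 : ℝ) ^ (ρ + ε) * (N : ℝ) ^ (ρ + ε)) := mul_le_mul_of_nonneg_left e1 (abs_nonneg C)
      _ = (|C| * (2 : ℝ) ^ (ρ + ε)) * (N : ℝ) ^ (ρ + ε) := by ring
      _ < (N : ℝ) ^ ε * (N : ℝ) ^ (ρ + ε) :=
          mul_lt_mul_of_pos_right h1 (Real.rpow_pos_of_pos hNpos _)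
  rw [← Real.rpow_add hNpos] at e2
  have e3 : ε + (ρ + ε) ≤ 1 / 2 - κ := by rw [hε]; linarith
  have e4 : (N : ℝ) ^ (ε + (ρ + ε)) ≤ (N : ℝ) ^ (1 / 2 - κ) :=
    Real.rpow_le_rpow_of_exponent_le (by exact_mod_cast hN1) e3
  linarith

/-- Unions of trees of equality tests. -/
theorem sumNorm_of_trees (N t d : ℕ) (T : Fin t → EqTree (Fin N) (Fin N))
    (hd : ∀ i, (T i).depth ≤ d) (hT : ∀ x y : Fin N, (x : ℕ) + y ∈ A ↔ ∃ i, (T i).run x y = true) :
    SumNorm A N t (t * 3 ^ d) := by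
  classical
  refine ⟨fun x y => ∑ i ∈ (univ : Finset (Fin t)), if (T i).run x y = true then (1 : ℝ) else 0, ?_, ?_, ?_⟩
  · have := NormLE.sum (X := Fin N) (Y := Fin N) (univ : Finset (Fin t))
      (fun i x y => if (T i).run x y = true then (1 : ℝ) else 0) (3 ^ d)
      (fun i _ => (EqTree.norm (T i)).mono (pow_le_pow_right₀ (by norm_num) (hd i)))
    rwa [card_univ, Fintype.card_fin] at this
  · intro x y hxy
    refine sum_eq_zero fun i _ => ?_
    rw [if_neg]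
    intro h
    exact hxy ((hT x y).2 ⟨i, h⟩)
  · intro x y hxy
    obtain ⟨i, hi⟩ := (hT x y).1 hxy
    have h0 : 0 ≤ ∑ i ∈ (univ : Finset (Fin t)), (if (T i).run x y = true then (1 : ℝ) else 0) :=
      sum_nonneg fun i _ => by split_ifs <;> norm_num
    show 1 ≤ |∑ i ∈ (univ : Finset (Fin t)), (if (T i).run x y = true then (1 : ℝ) else 0)| ∧
      |∑ i ∈ (univ : Finset (Fin t)), (if (T i).run x y = true then (1 : ℝ) else 0)| ≤ t
    rw [abs_of_nonneg h0]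
    constructor
    · calc (1 : ℝ) = if (T i).run x y = true then (1 : ℝ) else 0 := by rw [if_pos hi]
        _ ≤ _ := single_le_sum (f := fun i => if (T i).run x y = true then (1 : ℝ) else 0)
          (fun i _ => by positivity) (mem_univ i)
    · calc _ ≤ ∑ _i ∈ (univ : Finset (Fin t)), (1 : ℝ) :=
          sum_le_sum fun i _ => by split_ifs <;> norm_num
        _ = t := by simp

theorem exponent_of_trees (ρ : ℝ)
    (h : ∀ ε : ℝ, 0 < ε → ∀ᶠ N : ℕ in atTop, ∃ t d : ℕ, 1 ≤ t ∧ (t : ℝ) ^ 3 * 9 ^ d ≤ (N : ℝ) ^ (ρ + ε) ∧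
      ∃ T : Fin t → EqTree (Fin N) (Fin N), (∀ i, (T i).depth ≤ d) ∧
        ∀ x y : Fin N, (x : ℕ) + y ∈ A ↔ ∃ i, (T i).run x y = true) : Exponent A ρ := by
  intro ε hε
  filter_upwards [h ε hε] with N hN
  obtain ⟨t, d, ht, hb, T, hd, hT⟩ := hN
  refine ⟨t, t * 3 ^ d, by exact_mod_cast ht, by positivity, ?_, sumNorm_of_trees N t d T hd hT⟩
  refine le_trans (le_of_eq ?_) hb
  have : (9 : ℝ) ^ d = (3 ^ d) ^ 2 := by
    rw [← pow_mul, mul_comm, pow_mul]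
    norm_num
  rw [this]
  ring

end Pool.Agent.H700.AM
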