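import Pool.Agent.H700.HD.Norm
import Pool.Graph.R_pool_sql_team_seeded_c8625f6e.K4H44.FN.Pattern

/-!
# The addition matrix of a set with bounded representation function
-/

set_option autoImplicit false

namespace Pool.Agent.H700.AM

open Finset Pool.Agent.H700.HD
open scoped RealInnerProductSpace

open Classical in
/-- The four-cycle inequality for the support of a matrix of factorization norm at most `g`, whose nonzero entries
have absolute values between `1` and `β`. -/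
theorem four {X Y : Type} [Fintype X] [Fintype Y] (E : X → Y → Prop) (F : X → Y → ℝ) (g β : ℝ) (hβ : 1 ≤ β)
    (hF : NormLE F g) (h0 : ∀ i j, ¬ E i j → F i j = 0)
    (h1 : ∀ i j, E i j → 1 ≤ |F i j| ∧ |F i j| ≤ β) :
    ((univ.filter fun p : X × Y => E p.1 p.2).card : ℝ) ^ 3 ≤
      β * g ^ 2 * (Fintype.card X * Fintype.card Y) *
        ∑ j : Y, ∑ j' : Y, ((univ.filter fun i : X => E i j ∧ E i j').card : ℝ) ^ 2 := by
  obtain ⟨L, x, y, hx, hy, h⟩ := hF
  set u : X → EuclideanSpace ℝ (Fin L) := fun i => WithLp.toLp 2 (x i) with hu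
  set w : Y → EuclideanSpace ℝ (Fin L) := fun j => WithLp.toLp 2 (y j) with hw
  have hin : ∀ i j, ⟪u i, w j⟫ = F i j := by
    intro i j
    rw [h, PiLp.inner_apply]
    refine sum_congr rfl fun l _ => ?_
    simp [hu, hw, mul_comm]
  have hun : ∀ i, ‖u i‖ ^ 2 ≤ g := by
    intro i
    rw [EuclideanSpace.real_norm_sq_eq]
    exact hx i
  have hwn : ∀ j, ‖w j‖ ^ 2 ≤ g := by
    intro j
    rw [EuclideanSpace.real_norm_sq_eq]
    exact hy j
  set M : X → Y → ℝ := fun i j => if E i j then (if 0 ≤ F i j then 1 else -1) else 0 with hM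
  have hFM : ∀ i j, F i j * M i j = |F i j| := by
    intro i j
    by_cases hE : E i j
    · by_cases hp : 0 ≤ F i j
      · simp only [hM, if_pos hE, if_pos hp, mul_one, abs_of_nonneg hp]
      · simp only [hM, if_pos hE, if_neg hp, abs_of_neg (not_le.1 hp)]
        ring
    · simp [hM, if_neg hE, h0 i j hE]
  set S : ℝ := ∑ i, ∑ j, |F i j| with hS
  have hS0 : 0 ≤ S := sum_nonneg fun i _ => sum_nonneg fun j _ => abs_nonneg _
  have hSM : ∑ i, ∑ j, ⟪u i, w j⟫ * M i j = S := by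
    rw [hS]
    exact sum_congr rfl fun i _ => sum_congr rfl fun j _ => by rw [hin, hFM]
  have key := Pool.Agent.K4H44.FN.spectral_fs univ univ u w M (by rw [hSM]; exact hS0)
  rw [hSM] at key
  set Q : ℝ := ∑ j : Y, ∑ j' : Y, ((univ.filter fun i : X => E i j ∧ E i j').card : ℝ) ^ 2 with hQ
  have hQ0 : 0 ≤ Q := sum_nonneg fun _ _ => sum_nonneg fun _ _ => sq_nonneg _
  have hE1 : ((univ.filter fun p : X × Y => E p.1 p.2).card : ℝ) ≤ S := by
    rw [card_filter]
    push_cast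
    rw [Fintype.sum_prod_type, hS]
    refine sum_le_sum fun i _ => sum_le_sum fun j _ => ?_
    by_cases hE : E i j
    · simpa only [if_pos hE] using (h1 i j hE).1
    · simpa only [if_neg hE] using abs_nonneg _
  have hsq : ∑ i, ∑ j, ⟪u i, w j⟫ ^ 2 ≤ β * S := by
    rw [hS, mul_sum]
    refine sum_le_sum fun i _ => ?_
    rw [mul_sum]
    refine sum_le_sum fun j _ => ?_
    rw [hin]
    by_cases hE : E i j
    · rw [← sq_abs]
      nlinarith [(h1 i j hE).1, (h1 i j hE).2]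
    · rw [h0 i j hE]
      simp
  have hMM : ∑ j : Y, ∑ j' : Y, (∑ i, M i j * M i j') ^ 2 ≤ Q := by
    rw [hQ]
    refine sum_le_sum fun j _ => sum_le_sum fun j' _ => ?_
    have e : |∑ i, M i j * M i j'| ≤ ((univ.filter fun i : X => E i j ∧ E i j').card : ℝ) := by
      calc |∑ i, M i j * M i j'| ≤ ∑ i, |M i j * M i j'| := abs_sum_le_sum_abs _ _
        _ ≤ ∑ i, if E i j ∧ E i j' then (1 : ℝ) else 0 := by
            refine sum_le_sum fun i _ => ?_
            by_cases h2 : E i j <;> by_cases h3 : E i j'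
            · simp only [hM, if_pos h2, if_pos h3, h2, h3, and_self, if_true]
              split_ifs <;> norm_num
            · simp [hM, h2, h3]
            · simp [hM, h2, h3]
            · simp [hM, h2, h3]
        _ = _ := by rw [sum_boole]
    exact sq_le_sq' (by linarith [neg_abs_le (∑ i, M i j * M i j')]) ((le_abs_self _).trans e)
  have hU : ∑ i, ‖u i‖ ^ 2 ≤ Fintype.card X * g := by
    refine (sum_le_sum fun i _ => hun i).trans (le_of_eq ?_)
    rw [sum_const, nsmul_eq_mul, card_univ]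
  have hV : ∑ j, ‖w j‖ ^ 2 ≤ Fintype.card Y * g := by
    refine (sum_le_sum fun i _ => hwn i).trans (le_of_eq ?_)
    rw [sum_const, nsmul_eq_mul, card_univ]
  have hU0 : 0 ≤ ∑ i, ‖u i‖ ^ 2 := sum_nonneg fun _ _ => sq_nonneg _
  have hV0 : 0 ≤ ∑ j, ‖w j‖ ^ 2 := sum_nonneg fun _ _ => sq_nonneg _
  rcases hS0.eq_or_lt with hz | hpos
  · rw [← hz] at hE1
    have : ((univ.filter fun p : X × Y => E p.1 p.2).card : ℝ) = 0 :=
      le_antisymm hE1 (Nat.cast_nonneg _)
    rw [this]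
    have : 0 ≤ β * g ^ 2 * (Fintype.card X * Fintype.card Y) := by positivity
    rw [zero_pow (by norm_num)]
    exact mul_nonneg this hQ0
  · have k1 : S ^ 4 ≤ ((Fintype.card X * g) * (Fintype.card Y * g)) * (β * S) * Q := by
      refine key.trans ?_
      refine mul_le_mul ?_ hMM (sum_nonneg fun _ _ => sum_nonneg fun _ _ => sq_nonneg _) ?_
      · refine mul_le_mul ?_ hsq (sum_nonneg fun _ _ => sum_nonneg fun _ _ => sq_nonneg _) ?_
        · exact mul_le_mul hU hV hV0 (hU0.trans hU)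
        · exact mul_nonneg (hU0.trans hU) (hV0.trans hV)
      · exact mul_nonneg (mul_nonneg (hU0.trans hU) (hV0.trans hV)) (by positivity)
    have k2 : S ^ 3 ≤ β * g ^ 2 * (Fintype.card X * Fintype.card Y) * Q := by
      have : S * S ^ 3 ≤ S * (β * g ^ 2 * (Fintype.card X * Fintype.card Y) * Q) := by
        calc S * S ^ 3 = S ^ 4 := by ring
          _ ≤ _ := k1
          _ = _ := by ring
      exact le_of_mul_le_mul_left this hpos
    exact (pow_le_pow_left₀ (Nat.cast_nonneg _) hE1 3).trans k2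

open Classical in
/-- the number of the ordered pairs of elements of `A` with sum `n` -/
noncomputable def rep (A : Set ℕ) (n : ℕ) : ℕ :=
  ((antidiagonal n).filter fun p => p.1 ∈ A ∧ p.2 ∈ A).card

open Classical in
/-- the number of the elements of `A` less than `N` -/
noncomputable def count (A : Set ℕ) (N : ℕ) : ℕ := ((range N).filter fun a => a ∈ A).card

/-- Some real matrix with rows and columns `0, ..., N - 1`, of factorization norm at most `g`, is zero at the
places `(x, y)` with `x + y ∉ A` and has absolute value between `1` and `β` at the others. -/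
def SumNorm (A : Set ℕ) (N : ℕ) (β g : ℝ) : Prop :=
  ∃ F : Fin N → Fin N → ℝ, NormLE F g ∧ (∀ x y : Fin N, (x : ℕ) + y ∉ A → F x y = 0) ∧
    ∀ x y : Fin N, (x : ℕ) + y ∈ A → 1 ≤ |F x y| ∧ |F x y| ≤ β

variable {A : Set ℕ}

open Classical in
theorem quad_le (K : ℕ) (hK : ∀ n, rep A n ≤ K) (N : ℕ) (y : Fin N) :
    ∑ y' : Fin N, ((univ.filter fun x : Fin N => (x : ℕ) + y ∈ A ∧ (x : ℕ) + y' ∈ A).card) ^ 2 ≤
      K * count A (2 * N) ^ 2 := by
  set R : Finset ℕ := (range (2 * N)).filter fun a => a ∈ A with hR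
  set T : Finset (Fin N × (Fin N × Fin N)) := univ.filter fun t =>
    ((t.2.1 : ℕ) + y ∈ A ∧ (t.2.1 : ℕ) + t.1 ∈ A) ∧ ((t.2.2 : ℕ) + y ∈ A ∧ (t.2.2 : ℕ) + t.1 ∈ A) with hT
  have e1 : ∑ y' : Fin N, ((univ.filter fun x : Fin N => (x : ℕ) + y ∈ A ∧ (x : ℕ) + y' ∈ A).card) ^ 2 =
      T.card := by
    rw [hT, card_filter, Fintype.sum_prod_type]
    refine sum_congr rfl fun y' _ => ?_
    rw [← card_filter, sq, ← card_product]
    congr 1
    ext ⟨a, b⟩
    simp only [mem_product, mem_filter, mem_univ, true_and]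
  set S : Finset ((_ : ℕ × ℕ) × (ℕ × ℕ)) := (R ×ˢ R).sigma fun p =>
    (antidiagonal (p.1 + p.2)).filter fun q => q.1 ∈ A ∧ q.2 ∈ A with hS
  have e2 : S.card ≤ K * count A (2 * N) ^ 2 := by
    rw [hS, card_sigma]
    calc ∑ p ∈ R ×ˢ R, ((antidiagonal (p.1 + p.2)).filter fun q => q.1 ∈ A ∧ q.2 ∈ A).card
        ≤ ∑ _p ∈ R ×ˢ R, K := sum_le_sum fun p _ => hK (p.1 + p.2)
      _ = K * count A (2 * N) ^ 2 := by
          rw [sum_const, card_product, smul_eq_mul, count]
          ring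
  rw [e1]
  refine le_trans ?_ e2
  refine card_le_card_of_injOn (fun t => ⟨((t.2.1 : ℕ) + y, (t.2.2 : ℕ) + t.1),
    ((t.2.2 : ℕ) + y, (t.2.1 : ℕ) + t.1)⟩) ?_ ?_
  · intro t ht
    rw [mem_coe, hT, mem_filter] at ht
    obtain ⟨_, ⟨h1, h2⟩, h3, h4⟩ := ht
    rw [mem_coe, hS, mem_sigma, mem_product, hR, mem_filter, mem_filter, mem_range, mem_range, mem_filter,
      Finset.HasAntidiagonal.mem_antidiagonal]
    have b1 := t.1.2
    have b2 := t.2.1.2
    have b3 := t.2.2.2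
    have b4 := y.2
    refine ⟨⟨⟨?_, h1⟩, ⟨?_, h4⟩⟩, ?_, h3, h2⟩
    · show (t.2.1 : ℕ) + y < 2 * N
      omega
    · show (t.2.2 : ℕ) + t.1 < 2 * N
      omega
    · show (t.2.2 : ℕ) + y + ((t.2.1 : ℕ) + t.1) = (t.2.1 : ℕ) + y + ((t.2.2 : ℕ) + t.1)
      omega
  · intro t _ t' _ h
    have h' := congrArg (fun z : (_ : ℕ × ℕ) × (ℕ × ℕ) => (z.1.1, z.1.2, z.2.1, z.2.2)) h
    simp only [Prod.mk.injEq] at h'
    obtain ⟨h1, h2, h3, h4⟩ := h'
    refine Prod.ext (Fin.ext ?_) (Prod.ext (Fin.ext ?_) (Fin.ext ?_)) <;> omega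

open Classical in
theorem edges_ge (M : ℕ) :
    M * (count A (3 * M) - count A M) ≤
      (univ.filter fun p : Fin (2 * M) × Fin (2 * M) => (p.1 : ℕ) + p.2 ∈ A).card := by
  have e1 : count A (3 * M) - count A M = ((Ico M (3 * M)).filter fun a => a ∈ A).card := by
    have : count A (3 * M) = count A M + ((Ico M (3 * M)).filter fun a => a ∈ A).card := by
      unfold count
      rw [← card_union_of_disjoint]
      · congr 1
        rw [← filter_union]
        congr 1
        ext a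
        simp only [mem_range, mem_union, mem_Ico]
        omega
      · rw [disjoint_left]
        intro a ha hb
        rw [mem_filter, mem_range] at ha
        rw [mem_filter, mem_Ico] at hb
        omega
    omega
  rw [e1]
  have e2 : M * ((Ico M (3 * M)).filter fun a => a ∈ A).card =
      (((Ico M (3 * M)).filter fun a => a ∈ A) ×ˢ range M).card := by
    rw [card_product, card_range, mul_comm]
  rw [e2]
  have hx : ∀ p : ℕ × ℕ, p ∈ ((Ico M (3 * M)).filter fun a => a ∈ A) ×ˢ range M →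
      (p.1 + 1 - 2 * M) + p.2 < 2 * M ∧ p.1 - ((p.1 + 1 - 2 * M) + p.2) < 2 * M ∧
        (p.1 + 1 - 2 * M) + p.2 ≤ p.1 ∧ p.1 ∈ A := by
    intro p hp
    rw [mem_product, mem_filter, mem_Ico, mem_range] at hp
    obtain ⟨⟨⟨h1, h2⟩, h3⟩, h4⟩ := hp
    refine ⟨by omega, by omega, by omega, h3⟩
  refine card_le_card_of_surjOn (fun q : Fin (2 * M) × Fin (2 * M) =>
    ((q.1 : ℕ) + q.2, (q.1 : ℕ) - ((q.1 : ℕ) + q.2 + 1 - 2 * M))) ?_
  intro p hp
  obtain ⟨h1, h2, h3, h4⟩ := hx p hp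
  refine ⟨(⟨(p.1 + 1 - 2 * M) + p.2, h1⟩, ⟨p.1 - ((p.1 + 1 - 2 * M) + p.2), h2⟩), ?_, ?_⟩
  · rw [mem_coe, mem_filter]
    refine ⟨mem_univ _, ?_⟩
    show (p.1 + 1 - 2 * M) + p.2 + (p.1 - ((p.1 + 1 - 2 * M) + p.2)) ∈ A
    rw [show (p.1 + 1 - 2 * M) + p.2 + (p.1 - ((p.1 + 1 - 2 * M) + p.2)) = p.1 by omega]
    exact h4
  · refine Prod.ext ?_ ?_
    · show (p.1 + 1 - 2 * M) + p.2 + (p.1 - ((p.1 + 1 - 2 * M) + p.2)) = p.1
      omega
    · show (p.1 + 1 - 2 * M) + p.2 -
        ((p.1 + 1 - 2 * M) + p.2 + (p.1 - ((p.1 + 1 - 2 * M) + p.2)) + 1 - 2 * M) = p.2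
      omega

/-- The main inequality. -/
theorem main (K : ℕ) (hK : ∀ n, rep A n ≤ K) (M : ℕ) (β g : ℝ) (hβ : 1 ≤ β) (h : SumNorm A (2 * M) β g) :
    ((count A (3 * M) - count A M : ℕ) : ℝ) ^ 3 ≤ 8 * K * (β * g ^ 2) * (count A (4 * M) : ℝ) ^ 2 := by
  classical
  rcases Nat.eq_zero_or_pos M with rfl | hM
  · simp [count]
  obtain ⟨F, hF, h0, h1⟩ := h
  have h4 := four (fun x y : Fin (2 * M) => (x : ℕ) + y ∈ A) F g β hβ hF h0 h1
  have hQ : ∑ j : Fin (2 * M), ∑ j' : Fin (2 * M),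
      ((univ.filter fun i : Fin (2 * M) => (i : ℕ) + j ∈ A ∧ (i : ℕ) + j' ∈ A).card : ℝ) ^ 2 ≤
      2 * M * (K * (count A (4 * M) : ℝ) ^ 2) := by
    calc _ ≤ ∑ _j : Fin (2 * M), (K * (count A (4 * M) : ℝ) ^ 2) := by
          refine sum_le_sum fun y _ => ?_
          have := quad_le (A := A) K hK (2 * M) y
          rw [show 2 * (2 * M) = 4 * M by ring] at this
          exact_mod_cast this
      _ = _ := by
          rw [sum_const, card_univ, Fintype.card_fin, nsmul_eq_mul]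
          push_cast
          ring
  have hE := edges_ge (A := A) M
  have hER : (M : ℝ) * ((count A (3 * M) - count A M : ℕ) : ℝ) ≤
      ((univ.filter fun p : Fin (2 * M) × Fin (2 * M) => (p.1 : ℕ) + p.2 ∈ A).card : ℝ) := by
    exact_mod_cast hE
  have hM0 : (0 : ℝ) < M := by exact_mod_cast hM
  set a : ℝ := ((count A (3 * M) - count A M : ℕ) : ℝ) with ha
  have ha0 : 0 ≤ a := Nat.cast_nonneg _
  have k1 : (M * a) ^ 3 ≤ β * g ^ 2 * ((2 * M) * (2 * M)) * (2 * M * (K * (count A (4 * M) : ℝ) ^ 2)) := by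
    calc (M * a) ^ 3 ≤ _ := pow_le_pow_left₀ (by positivity) hER 3
      _ ≤ _ := h4
      _ ≤ β * g ^ 2 * (Fintype.card (Fin (2 * M)) * Fintype.card (Fin (2 * M))) *
          (2 * M * (K * (count A (4 * M) : ℝ) ^ 2)) :=
        mul_le_mul_of_nonneg_left hQ (by positivity)
      _ = _ := by
        rw [Fintype.card_fin]
        push_cast
        ring
  have k2 : (M : ℝ) ^ 3 * a ^ 3 ≤ M ^ 3 * (8 * K * (β * g ^ 2) * (count A (4 * M) : ℝ) ^ 2) := by
    calc (M : ℝ) ^ 3 * a ^ 3 = (M * a) ^ 3 := by ring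
      _ ≤ _ := k1
      _ = _ := by ring
  exact le_of_mul_le_mul_left k2 (by positivity)

end Pool.Agent.H700.AM
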