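import Pool.Agent.H700.AM.Asym

/-!
# Slowly growing norms
-/

set_option autoImplicit false

namespace Pool.Agent.H700.AM

open Finset Filter Pool.Agent.H700.HD

theorem chain (b : ℕ → ℝ) (hb : Monotone b) (j0 J : ℕ) (Γ : ℝ) (hΓ : 0 ≤ Γ)
    (hb1 : ∀ j, j0 ≤ j → 1 ≤ b j)
    (h : ∀ j, j0 ≤ j → j < J → (b (j + 1) - b j) ^ 3 ≤ Γ ^ 3 * b (j + 2) ^ 2) (m : ℕ) :
    ∀ j, j0 ≤ j → j + m ≤ J → b j ≤ (b j0 + J * Γ + 1) ^ 3 * b (j + m) ^ ((2 / 3 : ℝ) ^ m) := by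
  set Λ : ℝ := b j0 + J * Γ + 1 with hΛ
  have hbj0 := hb1 j0 le_rfl
  have hJΓ : 0 ≤ (J : ℝ) * Γ := by positivity
  have hΛ1 : 1 ≤ Λ := by rw [hΛ]; linarith
  have hpos : ∀ j, j0 ≤ j → 0 < b j := fun j hj => lt_of_lt_of_le one_pos (hb1 j hj)
  have one : ∀ j, j0 ≤ j → j < J → b (j + 1) ≤ b j + Γ * b (j + 2) ^ (2 / 3 : ℝ) := by
    intro j hj hJ
    have hp := hpos (j + 2) (by omega)
    have e : (Γ * b (j + 2) ^ (2 / 3 : ℝ)) ^ 3 = Γ ^ 3 * b (j + 2) ^ 2 := by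
      rw [mul_pow, ← Real.rpow_natCast (b (j + 2) ^ (2 / 3 : ℝ)) 3, ← Real.rpow_mul hp.le]
      congr 1
      rw [show (2 / 3 : ℝ) * ((3 : ℕ) : ℝ) = ((2 : ℕ) : ℝ) by push_cast; norm_num, Real.rpow_natCast]
    have e1 : (b (j + 1) - b j) ^ 3 ≤ (Γ * b (j + 2) ^ (2 / 3 : ℝ)) ^ 3 := by
      rw [e]
      exact h j hj hJ
    have e2 : b (j + 1) - b j ≤ Γ * b (j + 2) ^ (2 / 3 : ℝ) :=
      (pow_le_pow_iff_left₀ (sub_nonneg.2 (hb (Nat.le_succ j)))
        (mul_nonneg hΓ (Real.rpow_nonneg hp.le _)) (by norm_num)).1 e1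
    linarith
  have sumup : ∀ j, j0 ≤ j → ∀ i, j0 ≤ i → i ≤ j → j ≤ J →
      b i ≤ b j0 + i * Γ * b (j + 1) ^ (2 / 3 : ℝ) := by
    intro j hj i hi
    have hp := hpos (j + 1) (by omega)
    have hr : 0 ≤ b (j + 1) ^ (2 / 3 : ℝ) := Real.rpow_nonneg hp.le _
    induction i, hi using Nat.le_induction with
    | base =>
      intro _ _
      have : 0 ≤ (j0 : ℝ) * Γ * b (j + 1) ^ (2 / 3 : ℝ) := by positivity
      linarith
    | succ i hi ih =>
      intro h1 h2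
      have e1 := ih (by omega) h2
      have e2 := one i hi (by omega)
      have e3 : b (i + 2) ^ (2 / 3 : ℝ) ≤ b (j + 1) ^ (2 / 3 : ℝ) :=
        Real.rpow_le_rpow (hpos _ (by omega)).le (hb (by omega)) (by norm_num)
      have e4 : Γ * b (i + 2) ^ (2 / 3 : ℝ) ≤ Γ * b (j + 1) ^ (2 / 3 : ℝ) := mul_le_mul_of_nonneg_left e3 hΓ
      push_cast
      linarith
  have key : ∀ j, j0 ≤ j → j ≤ J → b j ≤ Λ * b (j + 1) ^ (2 / 3 : ℝ) := by
    intro j hj hJ
    have e1 := sumup j hj j hj le_rfl hJ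
    have hr : 1 ≤ b (j + 1) ^ (2 / 3 : ℝ) := Real.one_le_rpow (hb1 (j + 1) (by omega)) (by norm_num)
    have hjJ : (j : ℝ) * Γ ≤ J * Γ := mul_le_mul_of_nonneg_right (by exact_mod_cast hJ) hΓ
    have e2 : (j : ℝ) * Γ * b (j + 1) ^ (2 / 3 : ℝ) ≤ J * Γ * b (j + 1) ^ (2 / 3 : ℝ) :=
      mul_le_mul_of_nonneg_right hjJ (by linarith)
    have e3 : b j0 ≤ b j0 * b (j + 1) ^ (2 / 3 : ℝ) := le_mul_of_one_le_right (by linarith) hr
    rw [hΛ]
    nlinarith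
  induction m with
  | zero =>
    intro j hj _
    rw [pow_zero, Real.rpow_one, add_zero]
    exact le_mul_of_one_le_left (hpos j hj).le (one_le_pow₀ hΛ1)
  | succ m ih =>
    intro j hj hJ
    have e1 := ih (j + 1) (by omega) (by omega)
    have e2 := key j hj (by omega)
    rw [show j + 1 + m = j + (m + 1) by ring] at e1
    have hp := hpos (j + (m + 1)) (by omega)
    have hp1 := hpos (j + 1) (by omega)
    have e3 : b (j + 1) ^ (2 / 3 : ℝ) ≤ (Λ ^ 3 * b (j + (m + 1)) ^ ((2 / 3 : ℝ) ^ m)) ^ (2 / 3 : ℝ) :=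
      Real.rpow_le_rpow hp1.le e1 (by norm_num)
    have e4 : (Λ ^ 3 * b (j + (m + 1)) ^ ((2 / 3 : ℝ) ^ m)) ^ (2 / 3 : ℝ) =
        Λ ^ 2 * b (j + (m + 1)) ^ ((2 / 3 : ℝ) ^ (m + 1)) := by
      rw [Real.mul_rpow (by positivity) (Real.rpow_nonneg hp.le _), ← Real.rpow_natCast Λ 3,
        ← Real.rpow_mul (by linarith), ← Real.rpow_mul hp.le,
        show ((3 : ℕ) : ℝ) * (2 / 3) = ((2 : ℕ) : ℝ) by push_cast; norm_num, Real.rpow_natCast,
        pow_succ (2 / 3 : ℝ) m]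
    calc b j ≤ Λ * b (j + 1) ^ (2 / 3 : ℝ) := e2
      _ ≤ Λ * (Λ ^ 2 * b (j + (m + 1)) ^ ((2 / 3 : ℝ) ^ (m + 1))) := by
        rw [← e4]
        exact mul_le_mul_of_nonneg_left e3 (by linarith)
      _ = _ := by ring

theorem half_pow_bound (j : ℕ) : (j : ℝ) * (2 / 3 : ℝ) ^ j ≤ 2 := by
  have h1 : (1 : ℝ) + j * (1 / 2) ≤ (1 + 1 / 2) ^ j := one_add_mul_le_pow (by norm_num) j
  have h2 : (3 / 2 : ℝ) ^ j * (2 / 3 : ℝ) ^ j = 1 := by
    rw [← mul_pow]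
    norm_num
  have h3 : 0 < (2 / 3 : ℝ) ^ j := by positivity
  have h4 : (j : ℝ) / 2 ≤ (3 / 2 : ℝ) ^ j := by
    rw [show (1 + 1 / 2 : ℝ) = 3 / 2 by norm_num] at h1
    linarith
  have h5 : (j : ℝ) / 2 * (2 / 3 : ℝ) ^ j ≤ (3 / 2 : ℝ) ^ j * (2 / 3 : ℝ) ^ j :=
    mul_le_mul_of_nonneg_right h4 h3.le
  rw [h2] at h5
  linarith

/-- If the norms are bounded by a nondecreasing function `G`, then a set with bounded representation function
has at most `C G(N ^ 3) (log N) ^ 3` elements below `N`. -/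
theorem slow {A : Set ℕ} (K : ℕ) (hK : ∀ n, rep A n ≤ K) (G : ℕ → ℝ) (hG : Monotone G) (hG1 : ∀ N, 1 ≤ G N)
    (hA : ∀ᶠ N : ℕ in atTop, ∃ β g : ℝ, 1 ≤ β ∧ 0 ≤ g ∧ β * g ^ 2 ≤ G N ∧ SumNorm A N β g) :
    ∃ C : ℝ, ∀ᶠ N : ℕ in atTop, (count A N : ℝ) ≤ C * G (N ^ 3) * Real.log N ^ 3 := by
  classical
  by_cases hne : ∃ a, a ∈ A
  swap
  · refine ⟨0, Eventually.of_forall fun N => ?_⟩
    have : count A N = 0 := by
      unfold count
      rw [card_eq_zero, filter_eq_empty_iff]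
      intro a _ ha
      exact hne ⟨a, ha⟩
    rw [this]
    simp
  obtain ⟨a0, ha0⟩ := hne
  obtain ⟨N1, hN1⟩ := eventually_atTop.1 hA
  set j0 : ℕ := max N1 (a0 + 1) with hj0
  set b : ℕ → ℝ := fun j => (count A (3 ^ j) : ℝ) with hb
  have hbm : Monotone b := by
    intro i j hij
    show (count A (3 ^ i) : ℝ) ≤ count A (3 ^ j)
    exact_mod_cast count_mono A (Nat.pow_le_pow_right (by norm_num) hij)
  have hb0 : ∀ j, 0 ≤ b j := fun j => Nat.cast_nonneg _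
  have hb1 : ∀ j, j0 ≤ j → 1 ≤ b j := by
    intro j hj
    show (1 : ℝ) ≤ count A (3 ^ j)
    have h3j : j < 3 ^ j := Nat.lt_pow_self (by norm_num)
    have : 0 < count A (3 ^ j) := by
      unfold count
      refine card_pos.2 ⟨a0, ?_⟩
      rw [mem_filter, mem_range]
      have : a0 + 1 ≤ j0 := le_max_right _ _
      exact ⟨by omega, ha0⟩
    exact_mod_cast this
  -- the a priori bound
  have hP : ∀ j : ℕ, b j ≤ Real.sqrt (2 * K) * (3 : ℝ) ^ ((1 / 2 : ℝ) * j) := by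
    intro j
    have e1 := count_sq_le (A := A) K hK (3 ^ j)
    have e2 : b j ^ 2 ≤ 2 * K * 3 ^ j := by
      show (count A (3 ^ j) : ℝ) ^ 2 ≤ _
      exact_mod_cast e1
    have e3 : (Real.sqrt (2 * K) * (3 : ℝ) ^ ((1 / 2 : ℝ) * j)) ^ 2 = 2 * K * 3 ^ j := by
      rw [mul_pow, Real.sq_sqrt (by positivity), ← Real.rpow_natCast, ← Real.rpow_mul (by norm_num)]
      congr 1
      rw [show (1 / 2 : ℝ) * j * ((2 : ℕ) : ℝ) = (j : ℝ) by push_cast; ring, Real.rpow_natCast]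
    refine (pow_le_pow_iff_left₀ (hb0 j) (by positivity) (two_ne_zero)).1 ?_
    rw [e3]
    exact e2
  set s : ℝ := Real.sqrt (2 * K) + 1 with hs
  have hs1 : 1 ≤ s := by rw [hs]; linarith [Real.sqrt_nonneg (2 * K : ℝ)]
  set κ : ℝ := 2 * (K : ℝ) ^ (1 / 3 : ℝ) with hκ
  have hκ0 : 0 ≤ κ := by rw [hκ]; positivity
  have hκ3 : κ ^ 3 = 8 * K := by
    rw [hκ, mul_pow, ← Real.rpow_natCast ((K : ℝ) ^ (1 / 3 : ℝ)) 3, ← Real.rpow_mul (Nat.cast_nonneg K)]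
    norm_num
  have hbound : ∀ j, j0 ≤ j → 1 ≤ j →
      b j ≤ ((b j0 + 1 + 2 * κ) ^ 3 * (s * 9)) * G (2 * 3 ^ (2 * j)) * (j : ℝ) ^ 3 := by
    intro j hj hj1
    set γ : ℝ := G (2 * 3 ^ (2 * j)) with hγ
    have hγ1 : 1 ≤ γ := hG1 _
    set r : ℝ := γ ^ (1 / 3 : ℝ) with hr
    have hr1 : 1 ≤ r := Real.one_le_rpow hγ1 (by norm_num)
    have hr3 : r ^ 3 = γ := by
      rw [hr, ← Real.rpow_natCast (γ ^ (1 / 3 : ℝ)) 3, ← Real.rpow_mul (by linarith)]
      norm_num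
    have hmain : ∀ i, j0 ≤ i → i < 2 * j → (b (i + 1) - b i) ^ 3 ≤ (κ * r) ^ 3 * b (i + 2) ^ 2 := by
      intro i hi hi2
      have h3i : i < 3 ^ i := Nat.lt_pow_self (by norm_num)
      have hN1i : N1 ≤ j0 := le_max_left _ _
      obtain ⟨β, g, hβ, hg, hbg, hS⟩ := hN1 (2 * 3 ^ i) (by omega)
      have e1 := main (A := A) K hK (3 ^ i) β g hβ hS
      have e2 : ((count A (3 * 3 ^ i) - count A (3 ^ i) : ℕ) : ℝ) = b (i + 1) - b i := by
        rw [Nat.cast_sub (count_mono A (by omega))]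
        show (count A (3 * 3 ^ i) : ℝ) - _ = (count A (3 ^ (i + 1)) : ℝ) - count A (3 ^ i)
        rw [pow_succ, mul_comm]
      rw [e2] at e1
      have e3 : (count A (4 * 3 ^ i) : ℝ) ≤ b (i + 2) := by
        show (count A (4 * 3 ^ i) : ℝ) ≤ count A (3 ^ (i + 2))
        have : 4 * 3 ^ i ≤ 3 ^ (i + 2) := by
          rw [pow_add]
          omega
        exact_mod_cast count_mono A this
      have e4 : β * g ^ 2 ≤ γ := by
        refine hbg.trans (hG ?_)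
        exact Nat.mul_le_mul_left 2 (Nat.pow_le_pow_right (by norm_num) hi2.le)
      have hbg0 : 0 ≤ β * g ^ 2 := by positivity
      rw [mul_pow, hκ3, hr3]
      calc (b (i + 1) - b i) ^ 3 ≤ _ := e1
        _ ≤ 8 * K * γ * b (i + 2) ^ 2 := by
          refine mul_le_mul ?_ (pow_le_pow_left₀ (Nat.cast_nonneg _) e3 2) (by positivity) (by positivity)
          exact mul_le_mul_of_nonneg_left e4 (by positivity)
    have e1 := chain b hbm j0 (2 * j) (κ * r) (by positivity) hb1 hmain j j hj (by omega)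
    rw [show j + j = 2 * j by ring] at e1
    have hj1' : (1 : ℝ) ≤ j := by exact_mod_cast hj1
    have e2 : b (2 * j) ^ ((2 / 3 : ℝ) ^ j) ≤ s * 9 := by
      have h23 : 0 < (2 / 3 : ℝ) ^ j := by positivity
      have h23' : (2 / 3 : ℝ) ^ j ≤ 1 := pow_le_one₀ (by norm_num) (by norm_num)
      have f1 : b (2 * j) ≤ s * (3 : ℝ) ^ (j : ℝ) := by
        refine (hP (2 * j)).trans ?_
        have : (1 / 2 : ℝ) * ((2 * j : ℕ) : ℝ) = (j : ℝ) := by push_cast; ring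
        rw [this]
        refine mul_le_mul_of_nonneg_right ?_ (by positivity)
        rw [hs]
        linarith
      calc b (2 * j) ^ ((2 / 3 : ℝ) ^ j) ≤ (s * (3 : ℝ) ^ (j : ℝ)) ^ ((2 / 3 : ℝ) ^ j) :=
            Real.rpow_le_rpow (hb0 _) f1 h23.le
        _ = s ^ ((2 / 3 : ℝ) ^ j) * (3 : ℝ) ^ ((j : ℝ) * (2 / 3 : ℝ) ^ j) := by
            rw [Real.mul_rpow (by linarith) (by positivity), ← Real.rpow_mul (by norm_num)]
        _ ≤ s ^ (1 : ℝ) * (3 : ℝ) ^ (2 : ℝ) := by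
            refine mul_le_mul (Real.rpow_le_rpow_of_exponent_le hs1 h23')
              (Real.rpow_le_rpow_of_exponent_le (by norm_num) (half_pow_bound j)) (by positivity) (by positivity)
        _ = s * 9 := by
            rw [Real.rpow_one]
            norm_num
    have e3 : b j0 + ((2 * j : ℕ) : ℝ) * (κ * r) + 1 ≤ (b j0 + 1 + 2 * κ) * (j * r) := by
      push_cast
      have g1 : 1 ≤ (j : ℝ) * r := by nlinarith
      have g2 : b j0 + 1 ≤ (b j0 + 1) * (j * r) := le_mul_of_one_le_right (by linarith [hb0 j0]) g1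
      linarith
    have e0 : 0 ≤ b j0 + ((2 * j : ℕ) : ℝ) * (κ * r) + 1 := by
      have := hb0 j0
      positivity
    calc b j ≤ _ := e1
      _ ≤ ((b j0 + 1 + 2 * κ) * (j * r)) ^ 3 * (s * 9) := by
        refine mul_le_mul (pow_le_pow_left₀ e0 e3 3) e2 (Real.rpow_nonneg (hb0 _) _) ?_
        have := hb0 j0
        positivity
      _ = _ := by
        rw [mul_pow, mul_pow, hr3]
        ring
  set C1 : ℝ := (b j0 + 1 + 2 * κ) ^ 3 * (s * 9) with hC1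
  have hC10 : 0 ≤ C1 := by
    have := hb0 j0
    rw [hC1]
    positivity
  refine ⟨C1 * 8, ?_⟩
  filter_upwards [eventually_ge_atTop (3 ^ j0), eventually_ge_atTop 18] with N hN hN18
  set l := Nat.log 3 N with hl
  have h1 : 3 ^ l ≤ N := Nat.pow_log_le_self 3 (by omega)
  have h2 : N < 3 ^ (l + 1) := Nat.lt_pow_succ_log_self (by norm_num) N
  have hjl : j0 ≤ l + 1 := by
    by_contra hcon
    have : 3 ^ (l + 1) ≤ 3 ^ j0 := Nat.pow_le_pow_right (by norm_num) (by omega)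
    omega
  have e1 := hbound (l + 1) hjl (by omega)
  have hNr : (3 : ℝ) ≤ N := by
    have : 3 ≤ N := by omega
    exact_mod_cast this
  have hlog1 : 1 ≤ Real.log N := by
    rw [Real.le_log_iff_exp_le (by linarith)]
    exact (Real.exp_one_lt_d9.le.trans (by norm_num)).trans hNr
  have hll : (l : ℝ) ≤ Real.log N := by
    have h3 : (3 : ℝ) ^ l ≤ N := by exact_mod_cast h1
    have h4 : Real.log ((3 : ℝ) ^ l) ≤ Real.log N := Real.log_le_log (by positivity) h3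
    rw [Real.log_pow] at h4
    have h5 : 1 ≤ Real.log 3 := by
      rw [Real.le_log_iff_exp_le (by norm_num)]
      exact Real.exp_one_lt_d9.le.trans (by norm_num)
    nlinarith [(Nat.cast_nonneg l : (0 : ℝ) ≤ l)]
  have hGle : G (2 * 3 ^ (2 * (l + 1))) ≤ G (N ^ 3) := by
    refine hG ?_
    have : 2 * 3 ^ (2 * (l + 1)) = 18 * (3 ^ l) ^ 2 := by
      rw [← pow_mul]
      ring
    rw [this]
    calc 18 * (3 ^ l) ^ 2 ≤ N * N ^ 2 := Nat.mul_le_mul hN18 (Nat.pow_le_pow_left h1 2)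
      _ = N ^ 3 := by ring
  calc (count A N : ℝ) ≤ b (l + 1) := by
        show (count A N : ℝ) ≤ count A (3 ^ (l + 1))
        exact_mod_cast count_mono A h2.le
    _ ≤ C1 * G (2 * 3 ^ (2 * (l + 1))) * ((l + 1 : ℕ) : ℝ) ^ 3 := e1
    _ ≤ C1 * G (N ^ 3) * (2 * Real.log N) ^ 3 := by
        refine mul_le_mul (mul_le_mul_of_nonneg_left hGle hC10) ?_ (by positivity) ?_
        · refine pow_le_pow_left₀ (by positivity) ?_ 3
          push_cast
          linarith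
        · have := hG1 (N ^ 3)
          positivity
    _ = C1 * 8 * G (N ^ 3) * Real.log N ^ 3 := by ring

end Pool.Agent.H700.AM
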